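import Pool.Agent.K3h5.FF.Stm

/-! Project FF (MP_264509_pr), brick SYSP: the fixed point forest is a system. -/

set_option autoImplicit false

namespace Pool.Agent.K3h4.FF

open Pool.Agent.K3h5.FF

variable {m : ℕ}

/-- the letter `a` is at the position `p` -/
def At (π : Equiv.Perm (Fin (m + 1))) (p a : ℤ) : Prop :=
  ∃ q : Fin (m + 1), (q.val : ℤ) = p ∧ ((π q).val : ℤ) = a

lemma lab_inl (π : Equiv.Perm (Fin (m + 1))) (k a : ℤ) :
    LabP π (Sum.inl k) a ↔ At π (a - k) a := by
  constructor
  · rintro ⟨p, h1, h2⟩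
    exact ⟨p, by omega, h1⟩
  · rintro ⟨p, h1, h2⟩
    exact ⟨p, h2, by omega⟩

lemma lab_inr (π : Equiv.Perm (Fin (m + 1))) (j : ℕ) (a : ℤ) :
    LabP π (Sum.inr j) a ↔ At π j a := by
  constructor
  · rintro ⟨p, h1, h2⟩
    exact ⟨p, by exact_mod_cast h1, h2⟩
  · rintro ⟨p, h1, h2⟩
    exact ⟨p, by exact_mod_cast h1, h2⟩

lemma At.nonneg {π : Equiv.Perm (Fin (m + 1))} {p a : ℤ} (h : At π p a) : 0 ≤ p := by
  obtain ⟨q, h1, _⟩ := h
  omega

lemma At.letter {π : Equiv.Perm (Fin (m + 1))} {p a a' : ℤ} (h : At π p a) (h' : At π p a') :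
    a = a' := by
  obtain ⟨q, h1, h2⟩ := h
  obtain ⟨q', h3, h4⟩ := h'
  have h5 : q = q' := Fin.ext (by omega)
  subst h5
  omega

lemma At.pos {π : Equiv.Perm (Fin (m + 1))} {p p' a : ℤ} (h : At π p a) (h' : At π p' a) :
    p = p' := by
  obtain ⟨q, h1, h2⟩ := h
  obtain ⟨q', h3, h4⟩ := h'
  have h5 : π q = π q' := Fin.ext (by omega)
  have h6 := π.injective h5
  subst h6
  omega

lemma ext_at {v v' : Equiv.Perm (Fin (m + 1))} (h : ∀ p a, At v p a → At v' p a) : v = v' := by
  apply Equiv.ext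
  intro q
  obtain ⟨q', h1, h2⟩ := h q.val (v q).val ⟨q, rfl, rfl⟩
  have h3 : q' = q := Fin.ext (by omega)
  subst h3
  exact Fin.ext (by omega)

lemma at_child {x : Fin (m + 1)} {v w : Equiv.Perm (Fin (m + 1))} (h : IsBump x v w) (p a : ℤ) :
    At w p a ↔ (p = 0 ∧ a = x.val) ∨ (0 < p ∧ p ≤ x.val ∧ At v (p - 1) a) ∨
      ((x.val : ℤ) < p ∧ At v p a) := by
  obtain ⟨h1, h2, h3, h4⟩ := h
  constructor
  · rintro ⟨q, hq, ha⟩
    rcases Nat.eq_zero_or_pos q.val with h0 | h0
    · left
      rw [h2 q h0] at ha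
      exact ⟨by omega, by omega⟩
    · by_cases h5 : q.val ≤ x.val
      · right
        left
        obtain ⟨q', hq'⟩ : ∃ q' : Fin (m + 1), q.val = q'.val + 1 :=
          ⟨⟨q.val - 1, by have := q.isLt; omega⟩, by show q.val = q.val - 1 + 1; omega⟩
        rw [h3 q' q (by rw [Fin.lt_def]; omega) hq'] at ha
        exact ⟨by omega, by omega, q', by omega, ha⟩
      · right
        right
        rw [h4 q (by rw [Fin.lt_def]; omega)] at ha
        exact ⟨by omega, q, hq, ha⟩
  · rintro (⟨h5, h6⟩ | ⟨h5, h6, q, hq, ha⟩ | ⟨h5, q, hq, ha⟩)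
    · refine ⟨0, by rw [h5]; rfl, ?_⟩
      rw [h2 0 rfl]
      exact h6.symm
    · obtain ⟨q', hq'⟩ : ∃ q' : Fin (m + 1), q'.val = q.val + 1 :=
        ⟨⟨q.val + 1, by have := x.isLt; omega⟩, rfl⟩
      refine ⟨q', by omega, ?_⟩
      rw [h3 q q' (by rw [Fin.lt_def]; omega) hq']
      exact ha
    · refine ⟨q, hq, ?_⟩
      rw [h4 q (by rw [Fin.lt_def]; omega)]
      exact ha

lemma at_fix {x : Fin (m + 1)} {v w : Equiv.Perm (Fin (m + 1))} (h : IsBump x v w) :
    At v x.val x.val := ⟨x, rfl, by rw [h.1]⟩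

lemma at_parent {x : Fin (m + 1)} {v w : Equiv.Perm (Fin (m + 1))} (h : IsBump x v w) (p a : ℤ) :
    At v p a ↔ (p = x.val ∧ a = x.val) ∨ (0 ≤ p ∧ p < x.val ∧ At w (p + 1) a) ∨
      ((x.val : ℤ) < p ∧ At w p a) := by
  have h1 := at_fix h
  rw [at_child h (p + 1) a, at_child h p a]
  constructor
  · intro hv
    have h0 := hv.nonneg
    rcases lt_trichotomy p (x.val : ℤ) with h5 | h5 | h5
    · right
      left
      refine ⟨h0, h5, Or.inr (Or.inl ⟨by omega, by omega, ?_⟩)⟩
      rw [add_sub_cancel_right]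
      exact hv
    · left
      refine ⟨h5, ?_⟩
      rw [h5] at hv
      exact hv.letter h1
    · right
      right
      exact ⟨h5, Or.inr (Or.inr ⟨h5, hv⟩)⟩
  · rintro (⟨h5, h6⟩ | ⟨h5, h6, h7 | h7 | h7⟩ | ⟨h5, h7 | h7 | h7⟩)
    · rw [h5, h6]
      exact h1
    · omega
    · have h8 := h7.2.2
      rwa [add_sub_cancel_right] at h8
    · omega
    · omega
    · omega
    · exact h7.2

lemma bump_child {x : Fin (m + 1)} {v : Equiv.Perm (Fin (m + 1))} (h : v x = x) :
    IsBump x v ((Fin.cycleRange x).symm.trans v) := by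
  refine ⟨h, ?_, ?_, ?_⟩
  · intro j hj
    have h1 : j = 0 := Fin.ext hj
    subst h1
    rw [Equiv.trans_apply, Fin.cycleRange_symm_zero, h]
  · intro j j' hj hj'
    have h1 : (Fin.cycleRange x).symm j' = j := by
      rw [Equiv.symm_apply_eq]
      apply Fin.ext
      rw [Fin.coe_cycleRange_of_lt hj, hj']
    rw [Equiv.trans_apply, h1]
  · intro j hj
    have h1 : (Fin.cycleRange x).symm j = j := by
      rw [Equiv.symm_apply_eq, Fin.cycleRange_of_gt hj]
    rw [Equiv.trans_apply, h1]

lemma bump_parent (w : Equiv.Perm (Fin (m + 1))) :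
    IsBump (w 0) ((Fin.cycleRange (w 0)).trans w) w := by
  refine ⟨?_, ?_, ?_, ?_⟩
  · rw [Equiv.trans_apply, Fin.cycleRange_self]
  · intro j hj
    have h1 : j = 0 := Fin.ext hj
    rw [h1]
  · intro j j' hj hj'
    have h1 : Fin.cycleRange (w 0) j = j' := Fin.ext (by rw [Fin.coe_cycleRange_of_lt hj, hj'])
    rw [Equiv.trans_apply, h1]
  · intro j hj
    rw [Equiv.trans_apply, Fin.cycleRange_of_gt hj]

/-- the parent -/
def par (w : Equiv.Perm (Fin (m + 1))) : Option (Equiv.Perm (Fin (m + 1))) :=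
  if w 0 = 0 then none else some ((Fin.cycleRange (w 0)).trans w)

/-- the mark: the first letter -/
def mark (w : Equiv.Perm (Fin (m + 1))) : ℤ := ((w 0).val : ℤ)

lemma bump_front {x : Fin (m + 1)} {v w : Equiv.Perm (Fin (m + 1))} (h : IsBump x v w) :
    w 0 = x := h.2.1 0 rfl

lemma bump_unique {x : Fin (m + 1)} {v v' w : Equiv.Perm (Fin (m + 1))} (h : IsBump x v w)
    (h' : IsBump x v' w) : v = v' := by
  apply ext_at
  intro p a h1
  rw [at_parent h] at h1
  rw [at_parent h']
  exact h1

lemma bump_unique' {x : Fin (m + 1)} {v w w' : Equiv.Perm (Fin (m + 1))} (h : IsBump x v w)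
    (h' : IsBump x v w') : w = w' := by
  apply ext_at
  intro p a h1
  rw [at_child h] at h1
  rw [at_child h']
  exact h1

lemma par_iff (w v : Equiv.Perm (Fin (m + 1))) :
    par w = some v ↔ ∃ x, x ≠ 0 ∧ IsBump x v w := by
  constructor
  · intro h
    have h0 : w 0 ≠ 0 := by
      intro h0
      unfold par at h
      rw [if_pos h0] at h
      exact absurd h (by simp)
    unfold par at h
    rw [if_neg h0] at h
    have h1 := Option.some.inj h
    have h2 := bump_parent w
    rw [h1] at h2
    exact ⟨w 0, h0, h2⟩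
  · rintro ⟨x, hx, hb⟩
    have hw : w 0 = x := bump_front hb
    unfold par
    rw [if_neg (by rw [hw]; exact hx)]
    have hb' := bump_parent w
    rw [hw] at hb' ⊢
    rw [bump_unique hb hb']

lemma bump_zero {v w : Equiv.Perm (Fin (m + 1))} (h : IsBump 0 v w) : v = w := by
  apply ext_at
  intro p a h1
  have h0 := h1.nonneg
  have h2 : ((0 : Fin (m + 1)).val : ℤ) = 0 := rfl
  rw [at_parent h] at h1
  rw [at_child h]
  rw [h2] at h1 ⊢
  rcases h1 with h1 | h1 | h1
  · exact Or.inl h1
  · omega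
  · right
    right
    refine ⟨h1.1, ?_⟩
    rw [at_parent h, h2]
    exact Or.inr (Or.inr h1)

lemma bump_ne {x : Fin (m + 1)} (hx : x ≠ 0) {v w : Equiv.Perm (Fin (m + 1))}
    (h : IsBump x v w) : v ≠ w := by
  intro h1
  have h2 := bump_front h
  rw [← h1] at h2
  exact hx (v.injective (h.1.trans h2.symm))

lemma adj_iff (v w : Equiv.Perm (Fin (m + 1))) :
    (forest (m + 1)).Adj v w ↔ par v = some w ∨ par w = some v := by
  rw [par_iff, par_iff]
  unfold forest
  rw [SimpleGraph.fromRel_adj]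
  constructor
  · rintro ⟨hne, ⟨i, hi⟩ | ⟨i, hi⟩⟩
    · right
      refine ⟨i, ?_, hi⟩
      rintro rfl
      exact hne (bump_zero hi)
    · left
      refine ⟨i, ?_, hi⟩
      rintro rfl
      exact hne (bump_zero hi).symm
  · rintro (⟨x, hx, hb⟩ | ⟨x, hx, hb⟩)
    · exact ⟨(bump_ne hx hb).symm, Or.inr ⟨x, hb⟩⟩
    · exact ⟨bump_ne hx hb, Or.inl ⟨x, hb⟩⟩

lemma win_inl (s : ℕ) (k : ℤ) : Sum.inl k ∈ Win s ↔ -(s : ℤ) ≤ k ∧ k ≤ s := by
  simp [Win]

lemma win_inr (s j : ℕ) : (Sum.inr j : Label) ∈ Win s ↔ j < s := by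
  simp [Win]

lemma inj' (v w w' : Equiv.Perm (Fin (m + 1))) (h : par w = some v) (h' : par w' = some v)
    (hm : mark w = mark w') : w = w' := by
  obtain ⟨x, _, hb⟩ := (par_iff w v).1 h
  obtain ⟨x', _, hb'⟩ := (par_iff w' v).1 h'
  unfold mark at hm
  rw [bump_front hb, bump_front hb'] at hm
  have hxx : x = x' := Fin.ext (by omega)
  subst hxx
  exact bump_unique' hb hb'

lemma uniq {B s : ℕ} {v : Equiv.Perm (Fin (m + 1))} (hg : GoodP (m + 1) B s v) (l : Label)
    (hl : l ∈ Win s) (l' : Label) (hl' : l' ∈ Win s) (z : ℤ) (h : LabP v l z)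
    (h' : LabP v l' z) : l = l' := by
  have hz := (hg.2.2 l hl z h).1
  have hB := hg.1
  rcases l with k | j <;> rcases l' with k' | j'
  · rw [lab_inl] at h h'
    have := h.pos h'
    have h1 : k = k' := by omega
    rw [h1]
  · rw [lab_inl] at h
    rw [lab_inr] at h'
    rw [win_inl] at hl
    rw [win_inr] at hl'
    have := h.pos h'
    omega
  · rw [lab_inr] at h
    rw [lab_inl] at h'
    rw [win_inr] at hl
    rw [win_inl] at hl'
    have := h.pos h'
    omega
  · rw [lab_inr] at h h'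
    have := h.pos h'
    have h1 : j = j' := by omega
    rw [h1]

lemma front {v : Equiv.Perm (Fin (m + 1))} (z : ℤ) : LabP v (Sum.inr 0) z ↔ z = mark v := by
  rw [lab_inr]
  have h1 : At v ((0 : ℕ) : ℤ) (mark v) := ⟨0, rfl, rfl⟩
  constructor
  · intro h
    exact h.letter h1
  · intro h
    rw [h]
    exact h1

lemma good_mono {B s : ℕ} {v w : Equiv.Perm (Fin (m + 1))} (hg : GoodP (m + 1) B (s + 1) v)
    (h : ∀ l ∈ Win s, ∀ a, LabP w l a → ∃ l' ∈ Win (s + 1), LabP v l' a) :
    GoodP (m + 1) B s w := by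
  obtain ⟨h1, h2, h3⟩ := hg
  refine ⟨by omega, h2, fun l hl a ha => ?_⟩
  obtain ⟨l1, hl1, ha1⟩ := h l hl a ha
  obtain ⟨h4, h5⟩ := h3 l1 hl1 a ha1
  refine ⟨h4, fun l' hl' a' ha' hne => ?_⟩
  obtain ⟨l2, hl2, ha2⟩ := h l' hl' a' ha'
  exact h5 l2 hl2 a' ha2 hne

lemma sep {B s : ℕ} {v : Equiv.Perm (Fin (m + 1))} (hg : GoodP (m + 1) B s v) {l₀ : Label}
    (hl₀ : l₀ ∈ Win s) {X : ℤ} (hX : LabP v l₀ X) {l : Label} (hl : l ∈ Win s) {a : ℤ}
    (ha : LabP v l a) (hne : a ≠ X) : (B : ℤ) < X - a ∨ (B : ℤ) < -(X - a) := by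
  exact lt_abs.1 ((hg.2.2 l₀ hl₀ X hX).2 l hl a ha hne)

lemma up_rel {B s : ℕ} {v w : Equiv.Perm (Fin (m + 1))} (hg : GoodP (m + 1) B (s + 1) v)
    {x : Fin (m + 1)} (hb : IsBump x w v) :
    GoodP (m + 1) B s w ∧ UpRel s (LabP v) (LabP w) (x.val : ℤ) := by
  have hB := hg.1
  have hv0 : At v 0 x.val := (at_child hb 0 _).2 (Or.inl ⟨rfl, rfl⟩)
  have hw0 : At w x.val x.val := at_fix hb
  have hl0 : LabP v (Sum.inr 0) x.val := by
    rw [lab_inr]
    exact hv0
  have hm0 : (Sum.inr 0 : Label) ∈ Win (s + 1) := by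
    rw [win_inr]
    omega
  have hX := (hg.2.2 _ hm0 _ hl0).1
  have hsep : ∀ k : ℤ, Sum.inl k ∈ Win (s + 1) → ∀ a, At v (a - k) a → a ≠ x.val →
      (B : ℤ) < x.val - a ∨ (B : ℤ) < -(x.val - a) := fun k hk a ha hne =>
    sep hg hm0 hl0 hk ((lab_inl v k a).2 ha) hne
  have hrel : UpRel s (LabP v) (LabP w) (x.val : ℤ) := by
    constructor
    · intro j hj z
      rw [lab_inr, lab_inr, at_parent hb]
      push_cast
      constructor
      · rintro (h | h | h)
        · omega
        · exact h.2.2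
        · omega
      · intro h
        exact Or.inr (Or.inl ⟨by omega, by omega, h⟩)
    · intro k hk z
      rw [win_inl] at hk
      rw [lab_inl, lab_inl, lab_inl, at_parent hb]
      have e : z - (k - 1) = z - k + 1 := by ring
      rw [e]
      constructor
      · rintro (h | h | h)
        · right
          right
          omega
        · left
          refine ⟨?_, h.2.2⟩
          by_cases hz : z = x.val
          · have h1 := h.2.2
            rw [hz] at h1
            have := h1.pos hv0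
            omega
          · have h1 := hsep (k - 1) (by rw [win_inl]; push_cast; omega) z
              (by rw [e]; exact h.2.2) hz
            omega
        · right
          left
          refine ⟨?_, h.2⟩
          by_cases hz : z = x.val
          · have h1 := h.2
            rw [hz] at h1
            have := h1.pos hv0
            omega
          · have h1 := hsep k (by rw [win_inl]; push_cast; omega) z h.2 hz
            omega
      · rintro (h | h | h)
        · have h1 := hsep (k - 1) (by rw [win_inl]; push_cast; omega) z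
            (by rw [e]; exact h.2) (by omega)
          have h2 := h.2.nonneg
          have h3 : z - k + 1 ≠ 0 := by
            intro h3
            have h4 := h.2
            rw [h3] at h4
            have := h4.letter hv0
            omega
          exact Or.inr (Or.inl ⟨by omega, by omega, h.2⟩)
        · have h1 := hsep k (by rw [win_inl]; push_cast; omega) z h.2 (by omega)
          exact Or.inr (Or.inr ⟨by omega, h.2⟩)
        · exact Or.inl ⟨by omega, h.2⟩
  refine ⟨good_mono hg fun l hl a ha => ?_, hrel⟩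
  rcases l with k | j
  · have hl' := hl
    rw [win_inl] at hl'
    rcases (hrel.2 k hl a).1 ha with h | h | h
    · exact ⟨Sum.inl (k - 1), by rw [win_inl]; push_cast; omega, h.2⟩
    · exact ⟨Sum.inl k, by rw [win_inl]; push_cast; omega, h.2⟩
    · refine ⟨Sum.inr 0, hm0, ?_⟩
      rw [h.2]
      exact hl0
  · rw [win_inr] at hl
    exact ⟨Sum.inr (j + 1), by rw [win_inr]; omega, (hrel.1 j hl a).1 ha⟩

lemma down_rel {B s : ℕ} {v w : Equiv.Perm (Fin (m + 1))} (hg : GoodP (m + 1) B (s + 1) v)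
    {x : Fin (m + 1)} (hb : IsBump x v w) :
    GoodP (m + 1) B s w ∧ DownRel s (LabP v) (LabP w) (x.val : ℤ) := by
  have hB := hg.1
  have hv0 : At v x.val x.val := at_fix hb
  have hl0 : LabP v (Sum.inl 0) x.val := by
    rw [lab_inl, sub_zero]
    exact hv0
  have hm0 : (Sum.inl 0 : Label) ∈ Win (s + 1) := by
    rw [win_inl]
    push_cast
    omega
  have hX := (hg.2.2 _ hm0 _ hl0).1
  have hsep : ∀ k : ℤ, Sum.inl k ∈ Win (s + 1) → ∀ a, At v (a - k) a → a ≠ x.val →
      (B : ℤ) < x.val - a ∨ (B : ℤ) < -(x.val - a) := fun k hk a ha hne =>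
    sep hg hm0 hl0 hk ((lab_inl v k a).2 ha) hne
  have hrel : DownRel s (LabP v) (LabP w) (x.val : ℤ) := by
    refine ⟨fun _ z => ?_, fun j hj z => ?_, fun k hk z => ?_⟩
    · rw [lab_inr, at_child hb, Nat.cast_zero]
      constructor
      · rintro (h | h | h)
        · exact h.2
        · omega
        · omega
      · intro h
        exact Or.inl ⟨rfl, h⟩
    · rw [lab_inr, lab_inr, at_child hb]
      push_cast
      rw [add_sub_cancel_right]
      constructor
      · rintro (h | h | h)
        · omega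
        · exact h.2.2
        · omega
      · intro h
        exact Or.inr (Or.inl ⟨by omega, by omega, h⟩)
    · rw [win_inl] at hk
      rw [lab_inl, lab_inl, lab_inl, at_child hb]
      have e : z - (k + 1) = z - k - 1 := by ring
      rw [e]
      constructor
      · rintro (h | h | h)
        · omega
        · left
          refine ⟨?_, h.2.2⟩
          by_cases hz : z = x.val
          · have h1 := h.2.2
            rw [hz] at h1
            have := h1.pos hv0
            omega
          · have h1 := hsep (k + 1) (by rw [win_inl]; push_cast; omega) z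
              (by rw [e]; exact h.2.2) hz
            omega
        · right
          refine ⟨?_, h.2⟩
          by_cases hz : z = x.val
          · have h1 := h.2
            rw [hz] at h1
            have := h1.pos hv0
            omega
          · have h1 := hsep k (by rw [win_inl]; push_cast; omega) z h.2 hz
            omega
      · rintro (h | h)
        · have h1 := hsep (k + 1) (by rw [win_inl]; push_cast; omega) z
            (by rw [e]; exact h.2) (by omega)
          have h2 := h.2.nonneg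
          exact Or.inr (Or.inl ⟨by omega, by omega, h.2⟩)
        · have h1 := hsep k (by rw [win_inl]; push_cast; omega) z h.2 (by omega)
          exact Or.inr (Or.inr ⟨by omega, h.2⟩)
  refine ⟨good_mono hg fun l hl a ha => ?_, hrel⟩
  rcases l with k | j
  · have hl' := hl
    rw [win_inl] at hl'
    rcases (hrel.2.2 k hl a).1 ha with h | h
    · exact ⟨Sum.inl (k + 1), by rw [win_inl]; push_cast; omega, h.2⟩
    · exact ⟨Sum.inl k, by rw [win_inl]; push_cast; omega, h.2⟩
  · rw [win_inr] at hl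
    rcases j with - | j
    · have h1 := (hrel.1 hl a).1 ha
      refine ⟨Sum.inl 0, hm0, ?_⟩
      rw [h1]
      exact hl0
    · exact ⟨Sum.inr j, by rw [win_inr]; omega, (hrel.2.1 j hl a).1 ha⟩

/-- Brick SYSP -/
theorem t_SYSP : S_SYSP := by
  intro n B hn
  obtain ⟨m, rfl⟩ : ∃ m, n = m + 1 := ⟨n - 1, by omega⟩
  refine ⟨{ G := forest (m + 1), par := par, mark := mark, Lab := LabP, Good := GoodP (m + 1) B,
            adj := adj_iff, inj := inj', uniq := ?_, front := ?_, up := ?_, down := ?_,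
            child := ?_ }, rfl, fun _ _ _ => Iff.rfl, fun _ _ => Iff.rfl⟩
  · intro s v hg l hl l' hl' z h h'
    exact uniq hg l hl l' hl' z h h'
  · intro s v _ z
    exact front z
  · intro s v hg
    have hB := hg.1
    have h1 : LabP v (Sum.inr 0) (mark v) := (front _).2 rfl
    have h2 := (hg.2.2 _ (by rw [win_inr]; omega) _ h1).1
    unfold mark at h2
    have h3 : v 0 ≠ 0 := by
      intro h3
      rw [h3] at h2
      have h4 : ((0 : Fin (m + 1)).val : ℤ) = 0 := rfl
      omega
    obtain ⟨h4, h5⟩ := up_rel hg (bump_parent v)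
    exact ⟨_, (par_iff _ _).2 ⟨v 0, h3, bump_parent v⟩, h4, h5⟩
  · intro s v w hg hp
    obtain ⟨x, hx, hb⟩ := (par_iff _ _).1 hp
    have h1 := down_rel hg hb
    unfold mark
    rw [bump_front hb]
    exact h1
  · intro s v x hg
    constructor
    · intro h
      have h0 := (hg.2.2 _ (by rw [win_inl]; push_cast; omega) _ h).1
      rw [lab_inl, sub_zero] at h
      obtain ⟨q, h1, h2⟩ := h
      have h3 : v q = q := Fin.ext (by omega)
      have h4 : q ≠ 0 := by
        rintro rfl
        have h4 : ((0 : Fin (m + 1)).val : ℤ) = 0 := rfl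
        omega
      have hb := bump_child h3
      refine ⟨_, (par_iff _ _).2 ⟨q, h4, hb⟩, ?_⟩
      unfold mark
      rw [bump_front hb]
      exact h1
    · rintro ⟨w, hp, hm⟩
      obtain ⟨q, hq, hb⟩ := (par_iff _ _).1 hp
      unfold mark at hm
      rw [bump_front hb] at hm
      rw [lab_inl, sub_zero, ← hm]
      exact at_fix hb

end Pool.Agent.K3h4.FF
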